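import Pool.Agent.H547.C9.Stm3

set_option autoImplicit false

/-!
# The cubic transformation of `φ ^ 2` as a power series identity (project C9 of helper547)
-/

namespace Pool.Agent.H457.C9

open Finset PowerSeries Nat Pool.Agent.H547.P3 Pool.Agent.H547.P4 Pool.Agent.H547.C9

theorem h3_fac (k : ℕ) : h3 k * (k !) ^ 3 = (3 * k)! := by
  unfold h3
  have h1 := Nat.choose_mul_factorial_mul_factorial (n := 3 * k) (k := k) (by omega)
  have h2 := Nat.choose_mul_factorial_mul_factorial (n := 2 * k) (k := k) (by omega)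
  rw [show 3 * k - k = 2 * k by omega] at h1
  rw [show 2 * k - k = k by omega, ← Nat.centralBinom_eq_two_mul_choose] at h2
  rw [← h1, ← h2]
  ring

theorem h3_recQ (k : ℕ) :
    ((k : ℚ) + 1) ^ 2 * (h3 (k + 1) : ℚ) = 3 * (3 * k + 1) * (3 * k + 2) * (h3 k : ℚ) := by
  have h1 := h3_fac k
  have h2 := h3_fac (k + 1)
  have hk : ((k ! : ℕ) : ℚ) ≠ 0 := by positivity
  have h1q : (h3 k : ℚ) * (k ! : ℚ) ^ 3 = ((3 * k)! : ℚ) := by exact_mod_cast h1
  have h2q : (h3 (k + 1) : ℚ) * (((k : ℚ) + 1) * (k ! : ℚ)) ^ 3 =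
      (3 * k + 3) * (3 * k + 2) * (3 * k + 1) * ((3 * k)! : ℚ) := by
    have h4 : (3 * (k + 1))! = (3 * k + 3) * ((3 * k + 2) * ((3 * k + 1) * (3 * k)!)) := by
      rw [show 3 * (k + 1) = 3 * k + 2 + 1 by ring, Nat.factorial_succ, Nat.factorial_succ (3 * k + 1),
        Nat.factorial_succ (3 * k)]
    rw [h4, Nat.factorial_succ] at h2
    have h5 := congrArg (Nat.cast (R := ℚ)) h2
    push_cast at h5
    linear_combination h5
  have hk1 : ((k : ℚ) + 1) ≠ 0 := by positivity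
  apply mul_left_cancel₀ (mul_ne_zero hk1 (pow_ne_zero 3 hk))
  rw [← h1q] at h2q
  linear_combination h2q

theorem coeff_th {A : Type*} [CommRing A] (f : A⟦X⟧) (n : ℕ) : coeff n (th f) = (n : A) * coeff n f := by
  unfold th
  rcases n with _ | n
  · simp
  · rw [coeff_succ_X_mul, coeff_derivative]
    push_cast
    ring

theorem th_natCast {A : Type*} [CommRing A] (n : ℕ) : th ((n : ℕ) : A⟦X⟧) = 0 := by
  rw [← map_natCast (C (R := A)) n, th_C]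

theorem th_ofNat {A : Type*} [CommRing A] (n : ℕ) [n.AtLeastTwo] : th (no_index (OfNat.ofNat n) : A⟦X⟧) = 0 := by
  rw [← Nat.cast_ofNat, th_natCast]

theorem th_one' {A : Type*} [CommRing A] : th (1 : A⟦X⟧) = 0 := by
  rw [← Nat.cast_one, th_natCast]

theorem ode : (1 - 27 * X) * th (th (phi ℚ)) = 27 * X * th (phi ℚ) + 6 * X * phi ℚ := by
  have e27 : (27 : ℚ⟦X⟧) = C (27 : ℚ) := (map_ofNat C 27).symm
  have e6 : (6 : ℚ⟦X⟧) = C (6 : ℚ) := (map_ofNat C 6).symm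
  have key : th (th (phi ℚ)) = C (27 : ℚ) * (X * th (th (phi ℚ))) + C (27 : ℚ) * (X * th (phi ℚ)) +
      C (6 : ℚ) * (X * phi ℚ) := by
    ext n
    rw [map_add, map_add, coeff_C_mul, coeff_C_mul, coeff_C_mul]
    rcases n with _ | n
    · rw [coeff_th, coeff_zero_X_mul, coeff_zero_X_mul, coeff_zero_X_mul]
      simp
    · rw [coeff_succ_X_mul, coeff_succ_X_mul, coeff_succ_X_mul, coeff_th, coeff_th, coeff_th, coeff_th]
      unfold phi
      rw [coeff_mk, coeff_mk]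
      have h := h3_recQ n
      push_cast
      linear_combination h
  rw [← e27, ← e6] at key
  linear_combination key

theorem dvd_cancel {u f : ℚ⟦X⟧} (hu : constantCoeff u = 1) {n : ℕ} (h : X ^ n ∣ u * f) : X ^ n ∣ f := by
  have h1 : u * u⁻¹ = 1 := PowerSeries.mul_inv_cancel u (by rw [hu]; exact one_ne_zero)
  obtain ⟨q, hq⟩ := h
  exact ⟨u⁻¹ * q, by linear_combination u⁻¹ * hq - f * h1⟩

theorem dvd_of_th {f : ℚ⟦X⟧} (hf : constantCoeff f = 0) {n : ℕ} (h : X ^ n ∣ th f) : X ^ n ∣ f := by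
  rw [X_pow_dvd_iff] at h ⊢
  intro m hm
  rcases Nat.eq_zero_or_pos m with h0 | h0
  · subst h0
    rw [coeff_zero_eq_constantCoeff_apply]
    exact hf
  · have h1 := h m hm
    rw [coeff_th] at h1
    have h2 : (m : ℚ) ≠ 0 := by positivity
    exact (mul_eq_zero.1 h1).resolve_left h2

theorem th_const {f : ℚ⟦X⟧} : constantCoeff (th f) = 0 := by
  rw [← coeff_zero_eq_constantCoeff_apply, coeff_th]
  simp

theorem uniq3 {d0 d1 d2 d3 : ℚ⟦X⟧} (K : ℕ) (h0 : constantCoeff d0 = 0)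
    (r0 : (1 - 27 * X) * (1 + 216 * X) * th d0 =
      (1 - 540 * X - 5832 * X ^ 2) * d1 - 108 * X * (1 - 27 * X) * d0)
    (r1 : (1 - 27 * X) * (1 + 216 * X) * th d1 =
      (1 - 540 * X - 5832 * X ^ 2) * d2 - 108 * X * (1 - 27 * X) * d1)
    (r2 : (1 - 27 * X) * (1 + 216 * X) * th d2 =
      (1 - 540 * X - 5832 * X ^ 2) * d3 - 108 * X * (1 - 27 * X) * d2)
    (r3 : X ^ K ∣ (1 - 540 * X - 5832 * X ^ 2) ^ 2 * d3 -
      X * (1 - 27 * X) ^ 3 * (2592 * d2 + 1104 * d1 + 120 * d0)) : X ^ K ∣ d0 := by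
  have h1 : constantCoeff d1 = 0 := by
    have h := congrArg constantCoeff r0
    simp only [map_mul, map_sub, map_add, map_one, map_pow, map_ofNat, constantCoeff_X, th_const] at h
    linarith
  have h2 : constantCoeff d2 = 0 := by
    have h := congrArg constantCoeff r1
    simp only [map_mul, map_sub, map_add, map_one, map_pow, map_ofNat, constantCoeff_X, th_const] at h
    linarith
  have hE : constantCoeff ((1 - 540 * X - 5832 * X ^ 2) ^ 2 : ℚ⟦X⟧) = 1 := by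
    simp only [map_mul, map_sub, map_one, map_pow, map_ofNat, constantCoeff_X]
    norm_num
  have hML : constantCoeff ((1 - 27 * X) * (1 + 216 * X) : ℚ⟦X⟧) = 1 := by
    simp only [map_mul, map_sub, map_add, map_one, map_ofNat, constantCoeff_X]
    norm_num
  have main : ∀ n ≤ K, X ^ n ∣ d0 ∧ X ^ n ∣ d1 ∧ X ^ n ∣ d2 := by
    intro n
    induction n with
    | zero => intro _; simp
    | succ n ih =>
      intro hn
      obtain ⟨⟨q0, hq0⟩, ⟨q1, hq1⟩, ⟨q2, hq2⟩⟩ := ih (by omega)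
      have h3 : X ^ (n + 1) ∣ d3 := by
        apply dvd_cancel hE
        obtain ⟨q, hq⟩ := (pow_dvd_pow X hn).trans r3
        refine ⟨q + (1 - 27 * X) ^ 3 * (2592 * q2 + 1104 * q1 + 120 * q0), ?_⟩
        rw [hq0, hq1, hq2] at hq
        rw [pow_succ] at hq ⊢
        linear_combination hq
      obtain ⟨q3, hq3⟩ := h3
      have h4 : X ^ (n + 1) ∣ d2 := by
        apply dvd_of_th h2
        apply dvd_cancel hML
        refine ⟨(1 - 540 * X - 5832 * X ^ 2) * q3 - 108 * (1 - 27 * X) * q2, ?_⟩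
        rw [r2, hq3]
        nth_rewrite 1 [hq2]
        ring
      obtain ⟨q2', hq2'⟩ := h4
      have h5 : X ^ (n + 1) ∣ d1 := by
        apply dvd_of_th h1
        apply dvd_cancel hML
        refine ⟨(1 - 540 * X - 5832 * X ^ 2) * q2' - 108 * (1 - 27 * X) * q1, ?_⟩
        rw [r1, hq2']
        nth_rewrite 1 [hq1]
        ring
      obtain ⟨q1', hq1'⟩ := h5
      refine ⟨?_, ⟨q1', hq1'⟩, ⟨q2', hq2'⟩⟩
      apply dvd_of_th h0
      apply dvd_cancel hML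
      refine ⟨(1 - 540 * X - 5832 * X ^ 2) * q1' - 108 * (1 - 27 * X) * q0, ?_⟩
      rw [r0, hq1']
      nth_rewrite 1 [hq0]
      ring
  exact (main K le_rfl).1

/-- the truncated sums -/
noncomputable def G (σ : ℚ⟦X⟧) (i K : ℕ) : ℚ⟦X⟧ :=
  ∑ k ∈ range K, C ((k : ℚ) ^ i * (v1 k : ℚ)) * ((X * (1 - 27 * X) ^ 3) ^ k * σ ^ (6 * k + 1))

theorem th_M : th (1 - 27 * X : ℚ⟦X⟧) = -(27 * X) := by
  rw [th_sub, th_mul, th_one', th_ofNat, th_X]
  ring

theorem th_P (k : ℕ) : (1 - 27 * X) * th ((X * (1 - 27 * X) ^ 3 : ℚ⟦X⟧) ^ k) =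
    (k : ℚ⟦X⟧) * (1 - 108 * X) * (X * (1 - 27 * X) ^ 3) ^ k := by
  induction k with
  | zero => rw [pow_zero, th_one']; simp
  | succ k ih =>
    have h1 : th (X * (1 - 27 * X) ^ 3 : ℚ⟦X⟧) = X * (1 - 27 * X) ^ 2 * (1 - 108 * X) := by
      rw [show (X * (1 - 27 * X) ^ 3 : ℚ⟦X⟧) = X * ((1 - 27 * X) * ((1 - 27 * X) * (1 - 27 * X))) by ring,
        th_mul, th_mul, th_mul, th_X, th_M]
      ring
    rw [pow_succ, th_mul, h1]
    push_cast
    linear_combination (X * (1 - 27 * X) ^ 3) * ih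

theorem th_S {σ : ℚ⟦X⟧} (hs : (1 + 216 * X) * th σ = -(108 * X) * σ) (n : ℕ) :
    (1 + 216 * X) * th (σ ^ n) = -(108 * X) * (n : ℚ⟦X⟧) * σ ^ n := by
  induction n with
  | zero => rw [pow_zero, th_one']; simp
  | succ n ih =>
    rw [pow_succ, th_mul]
    push_cast
    linear_combination σ * ih + σ ^ n * hs

theorem th_G {σ : ℚ⟦X⟧} (hs : (1 + 216 * X) * th σ = -(108 * X) * σ) (i K : ℕ) :
    (1 - 27 * X) * (1 + 216 * X) * th (G σ i K) =
      (1 - 540 * X - 5832 * X ^ 2) * G σ (i + 1) K - 108 * X * (1 - 27 * X) * G σ i K := by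
  unfold G
  rw [th_sum, mul_sum, mul_sum, mul_sum, ← sum_sub_distrib]
  refine sum_congr rfl fun k _ => ?_
  have hP := th_P k
  have hS := th_S hs (6 * k + 1)
  have hC : (C ((k : ℚ) ^ (i + 1) * (v1 k : ℚ)) : ℚ⟦X⟧) = (k : ℚ⟦X⟧) * C ((k : ℚ) ^ i * (v1 k : ℚ)) := by
    rw [pow_succ, map_mul, map_mul, map_mul, map_natCast]
    ring
  rw [hC, th_mul, th_C, th_mul]
  push_cast at hS
  linear_combination (C ((k : ℚ) ^ i * (v1 k : ℚ)) * (1 + 216 * X) * σ ^ (6 * k + 1)) * hP +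
    (C ((k : ℚ) ^ i * (v1 k : ℚ)) * (1 - 27 * X) * (X * (1 - 27 * X) ^ 3) ^ k) * hS

theorem G_last {σ : ℚ⟦X⟧} (hs : σ ^ 2 * (1 + 216 * X) = 1) (K : ℕ) :
    X ^ K ∣ (1 - 540 * X - 5832 * X ^ 2) ^ 2 * G σ 3 K -
      X * (1 - 27 * X) ^ 3 * (2592 * G σ 2 K + 1104 * G σ 1 K + 120 * G σ 0 K) := by
  rcases K with _ | K
  · simp
  -- the term
  obtain ⟨t, ht⟩ : ∃ t : ℕ → ℚ⟦X⟧, t = fun k : ℕ => (X * (1 - 27 * X) ^ 3) ^ k * σ ^ (6 * k + 1) := ⟨_, rfl⟩
  have hts : ∀ k, t (k + 1) = (X * (1 - 27 * X) ^ 3 * σ ^ 6) * t k := by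
    intro k
    rw [ht]
    simp only
    rw [pow_succ, show 6 * (k + 1) + 1 = 6 * k + 1 + 6 by ring, pow_add]
    ring
  obtain ⟨q, hq⟩ : ∃ q : ℕ → ℚ, q = fun k : ℕ =>
    24 * (6 * (k : ℚ) + 1) * (2 * k + 1) * (6 * k + 5) * (v1 k : ℚ) := ⟨_, rfl⟩
  have hS : 1728 * G σ 3 (K + 1) + 2592 * G σ 2 (K + 1) + 1104 * G σ 1 (K + 1) + 120 * G σ 0 (K + 1) =
      ∑ k ∈ range (K + 1), C (q k) * t k := by
    unfold G
    rw [mul_sum, mul_sum, mul_sum, mul_sum, ← sum_add_distrib, ← sum_add_distrib, ← sum_add_distrib]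
    refine sum_congr rfl fun k _ => ?_
    have e0 : q k = 1728 * ((k : ℚ) ^ 3 * (v1 k : ℚ)) + 2592 * ((k : ℚ) ^ 2 * (v1 k : ℚ)) +
        1104 * ((k : ℚ) ^ 1 * (v1 k : ℚ)) + 120 * ((k : ℚ) ^ 0 * (v1 k : ℚ)) := by
      rw [hq]
      ring
    rw [e0, map_add, map_add, map_add, map_mul C 1728, map_mul C 2592, map_mul C 1104, map_mul C 120,
      map_ofNat, map_ofNat, map_ofNat, map_ofNat, ht]
    ring
  have hG3 : G σ 3 (K + 1) = (X * (1 - 27 * X) ^ 3 * σ ^ 6) * ∑ k ∈ range K, C (q k) * t k := by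
    unfold G
    rw [sum_range_succ', mul_sum]
    have e0 : (C (((0 : ℕ) : ℚ) ^ 3 * (v1 0 : ℚ)) * ((X * (1 - 27 * X) ^ 3) ^ 0 * σ ^ (6 * 0 + 1)) : ℚ⟦X⟧) = 0 := by
      simp
    rw [e0, add_zero]
    refine sum_congr rfl fun k _ => ?_
    have e1 : (((k + 1 : ℕ) : ℚ) ^ 3 * (v1 (k + 1) : ℚ)) = q k := by
      have := v1_recQ k
      rw [hq]
      push_cast
      linear_combination this
    have e2 : ((X * (1 - 27 * X) ^ 3) ^ (k + 1) * σ ^ (6 * (k + 1) + 1) : ℚ⟦X⟧) = t (k + 1) := by rw [ht]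
    rw [e1, e2, hts]
    ring
  rw [sum_range_succ] at hS
  have hL : σ ^ 6 * (1 + 216 * X) ^ 3 = 1 := by
    have : σ ^ 6 * (1 + 216 * X) ^ 3 = (σ ^ 2 * (1 + 216 * X)) ^ 3 := by ring
    rw [this, hs, one_pow]
  refine ⟨-((1 - 27 * X) ^ 3 * C (q K) * ((1 - 27 * X) ^ 3) ^ K * σ ^ (6 * K + 1)), ?_⟩
  have htK : t K = X ^ K * ((1 - 27 * X) ^ 3) ^ K * σ ^ (6 * K + 1) := by
    rw [ht]
    simp only
    rw [mul_pow]
  obtain ⟨S0, hS0⟩ : ∃ S0 : ℚ⟦X⟧, S0 = ∑ k ∈ range K, C (q k) * t k := ⟨_, rfl⟩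
  rw [← hS0] at hS hG3
  rw [htK] at hS
  rw [pow_succ X K]
  linear_combination (-(X * (1 - 27 * X) ^ 3)) * hS + (1 + 216 * X) ^ 3 * hG3 + (X * (1 - 27 * X) ^ 3 * S0) * hL

/-- the exact relation satisfied by `f ^ 2` -/
theorem gam_rel {f p g1 g2 g3 : ℚ⟦X⟧} (hp : th f = p)
    (hode : (1 - 27 * X) * th p = 27 * X * p + 6 * X * f)
    (r1 : (1 - 540 * X - 5832 * X ^ 2) * g1 =
      (1 - 27 * X) * (1 + 216 * X) * th (f ^ 2) + 108 * X * (1 - 27 * X) * f ^ 2)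
    (r2 : (1 - 540 * X - 5832 * X ^ 2) * g2 =
      (1 - 27 * X) * (1 + 216 * X) * th g1 + 108 * X * (1 - 27 * X) * g1)
    (r3 : (1 - 540 * X - 5832 * X ^ 2) * g3 =
      (1 - 27 * X) * (1 + 216 * X) * th g2 + 108 * X * (1 - 27 * X) * g2) :
    (1 - 540 * X - 5832 * X ^ 2) ^ 2 * g3 =
      X * (1 - 27 * X) ^ 3 * (2592 * g2 + 1104 * g1 + 120 * f ^ 2) := by
  have hE : (1 - 540 * X - 5832 * X ^ 2 : ℚ⟦X⟧) ≠ 0 := by
    intro h
    have h1 := congrArg constantCoeff h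
    simp only [map_mul, map_sub, map_one, map_pow, map_ofNat, constantCoeff_X, map_zero] at h1
    norm_num at h1
  have hf2 : th (f ^ 2) = 2 * f * p := by
    rw [pow_two, th_mul, hp]
    ring
  rw [hf2] at r1
  have hEd : th (1 - 540 * X - 5832 * X ^ 2 : ℚ⟦X⟧) = -(540 * X) - 11664 * X ^ 2 := by
    rw [th_sub, th_sub, th_mul, th_mul, th_one', th_ofNat, th_ofNat, th_X, th_X_pow]
    push_cast
    ring
  have h3 : th (X ^ 2 : ℚ⟦X⟧) = 2 * X ^ 2 := by rw [th_X_pow]; push_cast; ring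
  have h4 : th (X ^ 3 : ℚ⟦X⟧) = 3 * X ^ 3 := by rw [th_X_pow]; push_cast; ring
  have h5 : th (X ^ 4 : ℚ⟦X⟧) = 4 * X ^ 4 := by rw [th_X_pow]; push_cast; ring
  have h6 : th (X ^ 5 : ℚ⟦X⟧) = 5 * X ^ 5 := by rw [th_X_pow]; push_cast; ring
  have hp2 : th (p ^ 2) = 2 * p * th p := by
    rw [pow_two, th_mul]
    ring
  -- the derivative of the first relation
  have r1' := congrArg th r1
  rw [th_mul, hEd] at r1'
  have hR1 : th ((1 - 27 * X) * (1 + 216 * X) * (2 * f * p) + 108 * X * (1 - 27 * X) * f ^ 2) =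
      (189 * X - 11664 * X ^ 2) * (2 * f * p) + (1 - 27 * X) * (1 + 216 * X) * (2 * p * p + 2 * f * th p) +
      (108 * X - 5832 * X ^ 2) * f ^ 2 + 108 * X * (1 - 27 * X) * (2 * f * p) := by
    simp only [th_mul, th_add, th_sub, th_ofNat, th_X, th_one', hp, hf2]
    ring
  rw [hR1] at r1'
  -- the second one
  have hN2 : (1 - 540 * X - 5832 * X ^ 2) ^ 3 * g2 = (1 - 27 * X) *
      ((120 * X + 27864 * X ^ 2 - 7978176 * X ^ 3 + 245643840 * X ^ 4 - 1428513408 * X ^ 5) * f ^ 2 +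
      (1944 * X + 157464 * X ^ 2 - 51018336 * X ^ 3 + 1224440064 * X ^ 4) * (f * p) +
      (2 - 270 * X - 379080 * X ^ 2 - 45034704 * X ^ 3 + 952342272 * X ^ 4 + 14693280768 * X ^ 5) * p ^ 2) := by
    linear_combination (1 - 540 * X - 5832 * X ^ 2) ^ 2 * r2 +
      (1 - 27 * X) * (1 + 216 * X) * (1 - 540 * X - 5832 * X ^ 2) * r1' +
      (-(1 - 27 * X) * (1 + 216 * X) * (-(540 * X) - 11664 * X ^ 2) +
        108 * X * (1 - 27 * X) * (1 - 540 * X - 5832 * X ^ 2)) * r1 +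
      ((1 - 540 * X - 5832 * X ^ 2) * (1 - 27 * X) * (1 + 216 * X) ^ 2 * 2 * f) * hode
  have hN2' := congrArg th hN2
  have hE3 : th ((1 - 540 * X - 5832 * X ^ 2 : ℚ⟦X⟧) ^ 3) =
      3 * (1 - 540 * X - 5832 * X ^ 2) ^ 2 * (-(540 * X) - 11664 * X ^ 2) := by
    rw [show ((1 - 540 * X - 5832 * X ^ 2 : ℚ⟦X⟧) ^ 3) = (1 - 540 * X - 5832 * X ^ 2) *
      ((1 - 540 * X - 5832 * X ^ 2) * (1 - 540 * X - 5832 * X ^ 2)) by ring, th_mul, th_mul, hEd]
    ring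
  rw [th_mul, hE3] at hN2'
  have hR2 : th ((1 - 27 * X) *
      ((120 * X + 27864 * X ^ 2 - 7978176 * X ^ 3 + 245643840 * X ^ 4 - 1428513408 * X ^ 5) * f ^ 2 +
      (1944 * X + 157464 * X ^ 2 - 51018336 * X ^ 3 + 1224440064 * X ^ 4) * (f * p) +
      (2 - 270 * X - 379080 * X ^ 2 - 45034704 * X ^ 3 + 952342272 * X ^ 4 + 14693280768 * X ^ 5) * p ^ 2)) =
      -(27 * X) *
      ((120 * X + 27864 * X ^ 2 - 7978176 * X ^ 3 + 245643840 * X ^ 4 - 1428513408 * X ^ 5) * f ^ 2 +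
      (1944 * X + 157464 * X ^ 2 - 51018336 * X ^ 3 + 1224440064 * X ^ 4) * (f * p) +
      (2 - 270 * X - 379080 * X ^ 2 - 45034704 * X ^ 3 + 952342272 * X ^ 4 + 14693280768 * X ^ 5) * p ^ 2) +
      (1 - 27 * X) *
      ((120 * X + 27864 * X ^ 2 * 2 - 7978176 * X ^ 3 * 3 + 245643840 * X ^ 4 * 4 - 1428513408 * X ^ 5 * 5) * f ^ 2 +
      (120 * X + 27864 * X ^ 2 - 7978176 * X ^ 3 + 245643840 * X ^ 4 - 1428513408 * X ^ 5) * (2 * f * p) +
      (1944 * X + 157464 * X ^ 2 * 2 - 51018336 * X ^ 3 * 3 + 1224440064 * X ^ 4 * 4) * (f * p) +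
      (1944 * X + 157464 * X ^ 2 - 51018336 * X ^ 3 + 1224440064 * X ^ 4) * (p * p + f * th p) +
      (-(270 * X) - 379080 * X ^ 2 * 2 - 45034704 * X ^ 3 * 3 + 952342272 * X ^ 4 * 4 +
        14693280768 * X ^ 5 * 5) * p ^ 2 +
      (2 - 270 * X - 379080 * X ^ 2 - 45034704 * X ^ 3 + 952342272 * X ^ 4 + 14693280768 * X ^ 5) *
        (2 * p * th p)) := by
    simp only [th_mul, th_add, th_sub, th_ofNat, th_X, th_one', hp, hf2, hp2, h3, h4, h5, h6]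
    ring
  rw [hR2] at hN2'
  apply mul_left_cancel₀ (pow_ne_zero 3 hE)
  linear_combination (1 - 540 * X - 5832 * X ^ 2) ^ 4 * r3 +
    ((1 - 540 * X - 5832 * X ^ 2) * (1 - 27 * X) * (1 + 216 * X)) * hN2' +
    (-3 * (1 - 27 * X) * (1 + 216 * X) * (-(540 * X) - 11664 * X ^ 2) +
      108 * X * (1 - 27 * X) * (1 - 540 * X - 5832 * X ^ 2) - 2592 * X * (1 - 27 * X) ^ 3) * hN2 +
    (-1104 * X * (1 - 27 * X) ^ 3 * (1 - 540 * X - 5832 * X ^ 2) ^ 2) * r1 +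
    ((1 - 540 * X - 5832 * X ^ 2) * (1 - 27 * X) * (1 + 216 * X) *
      ((1944 * X + 157464 * X ^ 2 - 51018336 * X ^ 3 + 1224440064 * X ^ 4) * f +
      2 * (2 - 270 * X - 379080 * X ^ 2 - 45034704 * X ^ 3 + 952342272 * X ^ 4 + 14693280768 * X ^ 5) * p)) * hode

theorem mainQ {σ : ℚ⟦X⟧} (hs : σ ^ 2 * (1 + 216 * X) = 1) (hc : constantCoeff σ = 1) (K : ℕ) :
    X ^ K ∣ phi ℚ ^ 2 - G σ 0 K := by
  rcases K with _ | K
  · simp
  have hs' : (1 + 216 * X) * th σ = -(108 * X) * σ := by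
    have e1 : (C (-108 : ℚ) : ℚ⟦X⟧) = -108 := by rw [map_neg, map_ofNat]
    have e2 : (C (2 * (-108 : ℚ)) : ℚ⟦X⟧) = -216 := by
      rw [map_mul, map_ofNat, e1]
      norm_num
    have h1 : σ ^ 2 * (1 - C (2 * (-108 : ℚ)) * X) = 1 := by
      rw [e2]
      linear_combination hs
    have h2 := th_sigma (β := (-108 : ℚ)) (h := 1 / 2) (by norm_num) h1
    rw [h2, e1]
    linear_combination (-(108 * X * σ)) * hs
  have hEi : (1 - 540 * X - 5832 * X ^ 2 : ℚ⟦X⟧) * (1 - 540 * X - 5832 * X ^ 2 : ℚ⟦X⟧)⁻¹ = 1 := by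
    apply PowerSeries.mul_inv_cancel
    simp only [map_mul, map_sub, map_one, map_pow, map_ofNat, constantCoeff_X]
    norm_num
  obtain ⟨Ei, hEi'⟩ : ∃ Ei : ℚ⟦X⟧, Ei = (1 - 540 * X - 5832 * X ^ 2 : ℚ⟦X⟧)⁻¹ := ⟨_, rfl⟩
  rw [← hEi'] at hEi
  have hg : ∀ N : ℚ⟦X⟧, ∃ g : ℚ⟦X⟧, (1 - 540 * X - 5832 * X ^ 2) * g = N :=
    fun N => ⟨Ei * N, by linear_combination N * hEi⟩
  obtain ⟨g1, r1⟩ := hg ((1 - 27 * X) * (1 + 216 * X) * th (phi ℚ ^ 2) + 108 * X * (1 - 27 * X) * phi ℚ ^ 2)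
  obtain ⟨g2, r2⟩ := hg ((1 - 27 * X) * (1 + 216 * X) * th g1 + 108 * X * (1 - 27 * X) * g1)
  obtain ⟨g3, r3⟩ := hg ((1 - 27 * X) * (1 + 216 * X) * th g2 + 108 * X * (1 - 27 * X) * g2)
  have hrel := gam_rel (f := phi ℚ) rfl ode r1 r2 r3
  have t0 := th_G hs' 0 (K + 1)
  have t1 := th_G hs' 1 (K + 1)
  have t2 := th_G hs' 2 (K + 1)
  norm_num only [zero_add] at t0 t1 t2
  refine uniq3 (K + 1) (d1 := g1 - G σ 1 (K + 1)) (d2 := g2 - G σ 2 (K + 1)) (d3 := g3 - G σ 3 (K + 1))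
    ?_ ?_ ?_ ?_ ?_
  · have h1 : constantCoeff (phi ℚ) = 1 := by
      rw [← coeff_zero_eq_constantCoeff_apply, phi, coeff_mk]
      simp [h3]
    have h2 : constantCoeff (G σ 0 (K + 1)) = 1 := by
      unfold G
      rw [sum_range_succ', map_add, map_sum, sum_eq_zero]
      · simp [v1, hc]
      · intro k _
        have h3 : constantCoeff ((X * (1 - 27 * X) ^ 3 : ℚ⟦X⟧) ^ (k + 1)) = 0 := by
          rw [map_pow, map_mul, constantCoeff_X, zero_mul, zero_pow (Nat.succ_ne_zero k)]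
        rw [map_mul, map_mul constantCoeff (((X * (1 - 27 * X) ^ 3 : ℚ⟦X⟧)) ^ (k + 1)), h3, zero_mul, mul_zero]
    rw [map_sub, map_pow, h1, h2]
    norm_num
  · rw [th_sub]
    linear_combination (-1) * r1 - t0
  · rw [th_sub]
    linear_combination (-1) * r2 - t1
  · rw [th_sub]
    linear_combination (-1) * r3 - t2
  · obtain ⟨q, hq⟩ := G_last hs (K + 1)
    exact ⟨-q, by linear_combination hrel - hq⟩

/-- the truncated sum over a ring -/
noncomputable def S (A : Type) [CommRing A] (σ : A⟦X⟧) (K : ℕ) : A⟦X⟧ :=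
  ∑ k ∈ range K, C (v1 k : A) * ((X * (1 - 27 * X) ^ 3) ^ k * σ ^ (6 * k + 1))

theorem map_phi {A B : Type} [CommRing A] [CommRing B] (ρ : A →+* B) : PowerSeries.map ρ (phi A) = phi B := by
  ext n
  rw [PowerSeries.coeff_map, phi, phi, coeff_mk, coeff_mk, map_natCast]

theorem map_S {A B : Type} [CommRing A] [CommRing B] (ρ : A →+* B) (σ : A⟦X⟧) (K : ℕ) :
    PowerSeries.map ρ (S A σ K) = S B (PowerSeries.map ρ σ) K := by
  unfold S
  rw [map_sum]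
  refine sum_congr rfl fun k _ => ?_
  rw [map_mul, map_mul, map_pow, map_pow, map_mul, map_pow, map_sub, map_mul, map_one, map_ofNat,
    PowerSeries.map_X, PowerSeries.map_C, map_natCast]

theorem S_eq_G (σ : ℚ⟦X⟧) (K : ℕ) : S ℚ σ K = G σ 0 K := by
  unfold S G
  refine sum_congr rfl fun k _ => ?_
  rw [pow_zero, one_mul]

/-- the integral root of `1 / (1 + 216 X)` -/
noncomputable def sgN : ℤ⟦X⟧ := PowerSeries.mk fun n => (-54 : ℤ) ^ n * (n.centralBinom : ℤ)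

theorem sgN_map : PowerSeries.map (Int.castRingHom ℚ) sgN = PowerSeries.mk (cc (-54) 0) := by
  ext n
  rw [PowerSeries.coeff_map, sgN, coeff_mk, coeff_mk]
  unfold cc
  rw [Nat.centralBinom_eq_two_mul_choose, eq_intCast]
  push_cast
  rw [Nat.cast_choose ℚ (show n ≤ 2 * n by omega), show 2 * n - n = n by omega]
  simp
  ring

theorem sgN_sq : sgN ^ 2 * (1 + 216 * X) = 1 := by
  apply mapZQ_inj
  rw [map_mul, map_pow, sgN_map, map_add, map_one, map_mul, map_ofNat, PowerSeries.map_X]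
  have h := E_sq (-54)
  have e2 : (C (4 * (-54 : ℚ)) : ℚ⟦X⟧) = -216 := by
    rw [show (4 * (-54 : ℚ)) = -216 by norm_num, map_neg, map_ofNat]
  rw [e2] at h
  linear_combination h

theorem sgN_cc : constantCoeff sgN = 1 := by
  rw [← coeff_zero_eq_constantCoeff_apply, sgN, coeff_mk]
  simp

theorem mainZ (K : ℕ) : X ^ K ∣ phi ℤ ^ 2 - S ℤ sgN K := by
  have hsq : (PowerSeries.map (Int.castRingHom ℚ) sgN) ^ 2 * (1 + 216 * X) = 1 := by
    have h := congrArg (PowerSeries.map (Int.castRingHom ℚ)) sgN_sq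
    rwa [map_mul, map_pow, map_add, map_one, map_mul, map_ofNat, PowerSeries.map_X] at h
  have hcc : constantCoeff (PowerSeries.map (Int.castRingHom ℚ) sgN) = 1 := by
    rw [← coeff_zero_eq_constantCoeff_apply, PowerSeries.coeff_map, coeff_zero_eq_constantCoeff_apply, sgN_cc,
      map_one]
  have h1 := mainQ hsq hcc K
  rw [X_pow_dvd_iff] at h1 ⊢
  intro n hn
  have h2 := h1 n hn
  rw [← S_eq_G, ← map_S, ← map_phi (Int.castRingHom ℚ), ← map_pow, ← map_sub, PowerSeries.coeff_map,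
    eq_intCast] at h2
  exact_mod_cast h2

theorem Bc : S_Bc := by
  intro A _
  refine ⟨PowerSeries.map (Int.castRingHom A) sgN, ?_, ?_, fun K => ?_⟩
  · have h := congrArg (PowerSeries.map (Int.castRingHom A)) sgN_sq
    rwa [map_mul, map_pow, map_add, map_one, map_mul, map_ofNat, PowerSeries.map_X] at h
  · rw [← coeff_zero_eq_constantCoeff_apply, PowerSeries.coeff_map, coeff_zero_eq_constantCoeff_apply, sgN_cc,
      map_one]
  · obtain ⟨q, hq⟩ := mainZ K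
    have h := congrArg (PowerSeries.map (Int.castRingHom A)) hq
    rw [map_sub, map_pow, map_phi, map_S, map_mul, map_pow, PowerSeries.map_X] at h
    exact ⟨_, h⟩

end Pool.Agent.H457.C9
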